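import Pool.Agent.Helper76.GT.St

/-! Project GT (MP_b731ff_al), module FIN: final assembly, maximum principle. -/

set_option autoImplicit false

namespace Pool.Agent.Helper48.GT

open Pool.Agent.Helper76.GT Filter
open scoped Pointwise

universe u

/-- an infinite group in which a nontrivial element has only finitely many conjugates has an
infinite centralizer -/
private lemma not_finite_of_normal {H : Type u} [Group H] [Infinite H] (hFC : FC H)
    (K : Subgroup H) (hKn : K.Normal) (x : H) (hx : x ∈ K) (hx1 : x ≠ 1) : ¬ Finite K := by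
  intro hfin
  let φ : H → K := fun g => ⟨g * x * g⁻¹, hKn.conj_mem x hx g⟩
  obtain ⟨y, hy⟩ := Finite.exists_infinite_fiber φ
  obtain ⟨g₀⟩ : Nonempty (φ ⁻¹' {y}) := inferInstance
  have := hFC x hx1
  have key : ∀ g : (φ ⁻¹' {y}), (g₀ : H)⁻¹ * g ∈ Subgroup.centralizer ({x} : Set H) := by
    intro g
    rw [Subgroup.mem_centralizer_iff]
    intro x' hx'
    rw [Set.mem_singleton_iff] at hx'
    rw [hx']
    have h1 : φ g = φ g₀ := (g.2 : φ g = y).trans (g₀.2 : φ g₀ = y).symm
    have h2 : (g : H) * x * (g : H)⁻¹ = (g₀ : H) * x * (g₀ : H)⁻¹ := congrArg Subtype.val h1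
    have h3 : (g : H) * x = (g₀ : H) * x * (g₀ : H)⁻¹ * g := by
      rw [← h2]; group
    calc x * ((g₀ : H)⁻¹ * g) = (g₀ : H)⁻¹ * ((g₀ : H) * x * (g₀ : H)⁻¹ * g) := by group
      _ = (g₀ : H)⁻¹ * ((g : H) * x) := by rw [h3]
      _ = (g₀ : H)⁻¹ * g * x := by group
  have hinj : Function.Injective (fun g : (φ ⁻¹' {y}) =>
      (⟨(g₀ : H)⁻¹ * g, key g⟩ : Subgroup.centralizer ({x} : Set H))) := by
    intro g g' h
    have h1 : (g₀ : H)⁻¹ * g = (g₀ : H)⁻¹ * g' := congrArg Subtype.val h
    exact Subtype.ext (mul_left_cancel h1)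
  exact not_finite_iff_infinite.2 hy (Finite.of_injective _ hinj)

/-- the maximum principle -/
private lemma max_principle {H : Type u} [Group H] {S : Finset H} (hS : Gen S) (f : H → ℝ)
    (hf : Harm S f) (x₀ : H) (hmax : ∀ y, f y ≤ f x₀) (y : H) : f y = f x₀ := by
  have step : ∀ z, f z = f x₀ → ∀ s ∈ S, f (z * s) = f x₀ := by
    intro z hz s hs
    have h1 : ∀ s ∈ S, f (z * s) - f z ≤ 0 := by
      intro s _
      rw [hz]
      linarith [hmax (z * s)]
    have h2 := (Finset.sum_eq_zero_iff_of_nonpos h1).1 (hf z) s hs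
    linarith
  have h : ∀ g : H, g ∈ Subgroup.closure (S : Set H) → f (x₀ * g) = f x₀ := by
    intro g hg
    induction hg using Subgroup.closure_induction_right with
    | one => rw [mul_one]
    | mul_right a _ b hb ih =>
      rw [← mul_assoc]
      exact step _ ih b (Finset.mem_coe.1 hb)
    | mul_inv_cancel a _ b hb ih =>
      rw [← mul_assoc]
      exact step _ ih b⁻¹ (hS.inv b (Finset.mem_coe.1 hb))
  have h' := h (x₀⁻¹ * y) (by rw [hS.gen]; exact Subgroup.mem_top _)
  rwa [mul_inv_cancel_left] at h'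

theorem pFIN (H : Type u) [Group H] [DecidableEq H] (h1 : FDM H) (h2 : HAA H) (h3 : HAB H)
    (h4 : REP H) (h5 : GRO H) : FIN H := by
  intro S hS hinf hFF hFC htor hPG
  obtain ⟨ν, hν, hνf⟩ := h4 S hS (h1 S hS hPG)
  obtain ⟨f, hfH, hfL, hf1, hf0⟩ := h3 S hS (h2 S hS hinf hPG)
  by_cases hK : ∀ g, ν g = 0 → g = 1
  · obtain ⟨C, d, hfr⟩ := hPG
    obtain ⟨n, hn1, hn2⟩ := (hfr.and_eventually (h5 S hS hinf hFF hFC ν hν hK C d)).exists
    exact absurd hn1 (not_le.2 hn2)
  push Not at hK
  obtain ⟨x, hx0, hx1⟩ := hK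
  let K : Subgroup H :=
    { carrier := {g | ν g = 0}
      one_mem' := hν.one
      mul_mem' := by
        intro a b ha hb
        change ν (a * b) = 0
        have ha' : ν a = 0 := ha
        have hb' : ν b = 0 := hb
        have := hν.mul a b
        rw [ha', hb', add_zero] at this
        exact le_antisymm this (hν.nonneg _)
      inv_mem' := by
        intro a ha
        change ν a⁻¹ = 0
        rw [hν.inv]
        exact ha }
  have hKm : ∀ g, g ∈ K ↔ ν g = 0 := fun g => Iff.rfl
  have hKn : K.Normal := ⟨fun n hn g => by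
    rw [hKm, hν.conj]
    exact hn⟩
  have hKinf : ¬ Finite K := not_finite_of_normal hFC K hKn x hx0 hx1
  have hKi : K.index ≠ 0 := (hFF K).resolve_left hKinf
  have hadd : ∀ g, ν g = 0 → ∀ y, f (g * y) = f g + f y := fun g hg y =>
    hνf g hg f hfH hfL hf1 y
  have hg0 : ∀ g, ν g = 0 → f g = 0 := by
    intro g hg
    have hp : ∀ n : ℕ, f (g ^ n) = n * f g := by
      intro n
      induction n with
      | zero => simp [hf1]
      | succ n ih =>
        rw [pow_succ', hadd g hg, ih]
        push_cast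
        ring
    obtain ⟨m, hm, hgm⟩ := (isOfFinOrder_iff_pow_eq_one).1 (htor g)
    have h6 := hp m
    rw [hgm, hf1] at h6
    have hm' : (m : ℝ) ≠ 0 := by exact_mod_cast hm.ne'
    exact (mul_eq_zero.1 h6.symm).resolve_left hm'
  have hright : ∀ y k : H, k ∈ K → f (y * k) = f y := by
    intro y k hk
    have h7 : ν (y * k * y⁻¹) = 0 := by
      rw [hν.conj]
      exact hk
    have h8 := hadd _ h7 y
    rw [hg0 _ h7, zero_add] at h8
    rw [← h8]
    congr 1
    group
  have : K.FiniteIndex := ⟨hKi⟩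
  have : Finite (H ⧸ K) := K.finite_quotient_of_finiteIndex
  let F : H ⧸ K → ℝ := Quotient.lift f (by
    intro a b hab
    have h9 : a⁻¹ * b ∈ K := QuotientGroup.leftRel_apply.1 hab
    have := hright a _ h9
    rw [mul_inv_cancel_left] at this
    exact this.symm)
  have hF : ∀ y : H, F (y : H ⧸ K) = f y := fun y => rfl
  obtain ⟨q, hq⟩ := Finite.exists_max F
  obtain ⟨x₀, rfl⟩ := QuotientGroup.mk_surjective q
  have hmax : ∀ y, f y ≤ f x₀ := by
    intro y
    have := hq (y : H ⧸ K)
    rwa [hF, hF] at this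
  apply hf0
  funext y
  rw [max_principle hS f hfH x₀ hmax y, ← max_principle hS f hfH x₀ hmax 1, hf1]
  rfl

end Pool.Agent.Helper48.GT
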